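import Pool.Agent.H44.DU.Targets2

/-!
# The heights along the leaves of an upper level
-/

set_option autoImplicit false

namespace Pool.Agent.H14.DU.HL1

open Pool.Agent.H44.DU Pool.Agent.H44.DU.Surf

variable {n : ℕ}

theorem lam_mem (S : Surf n) {t x : ℝ} {r : Side n} (h : S.InJ t r x) :
    0 < S.lam t r x ∧ S.lam t r x < 1 := by
  obtain ⟨h1, h2⟩ := h
  have h3 : 0 < xi t (S.P r) - xi t (S.Q r) := by linarith
  constructor
  · exact div_pos (by linarith) h3
  · rw [lam, div_lt_one h3]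
    linarith

theorem hh_mix (α : Fin n → ℝ) (β : Fin n → ℂ) (i : Fin n) (z w : ℂ) (l : ℝ) :
    hh α β i (z + (l : ℂ) * (w - z)) = (1 - l) * hh α β i z + l * hh α β i w := by
  simp [hh]
  ring

theorem hh_dir (α : Fin n → ℝ) (β : Fin n → ℂ) (i : Fin n) (z : ℂ) (c t : ℝ) :
    hh α β i (z + (c : ℂ) * ((t : ℂ) + Complex.I)) =
      hh α β i z + c * ((β i).re * t + (β i).im) := by
  simp [hh]
  ring

theorem ex_eq (S : Surf n) (α : Fin n → ℝ) (β : Fin n → ℂ) (t : ℝ) (r : Side n) (x : ℝ) :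
    S.ex α β t r x = (1 - S.lam t r x) * hh α β r.1 (S.P r) +
      S.lam t r x * hh α β r.1 (S.Q r) := by
  rw [ex, pt, hh_mix]

theorem core {α t b1 b2 p1 p2 q1 q2 o1 o2 : ℝ} (hP : α + b1 * p1 + b2 * p2 = 0)
    (hQ : α + b1 * q1 + b2 * q2 = 0) (hO : 0 ≤ α + b1 * o1 + b2 * o2)
    (hd : 0 ≤ b1 * t + b2) (hex : (q1 - p1) - t * (q2 - p2) < 0)
    (har : 0 < (q1 - p1) * (o2 - p2) - (q2 - p2) * (o1 - p1)) : b1 = 0 ∧ b2 = 0 := by
  have hu : b1 * (q1 - p1) + b2 * (q2 - p2) = 0 := by linarith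
  have hv : 0 ≤ b1 * (o1 - p1) + b2 * (o2 - p2) := by linarith
  have hid : ((q1 - p1) * (o2 - p2) - (q2 - p2) * (o1 - p1)) * (b1 * t + b2) =
      (t * (o2 - p2) - (o1 - p1)) * (b1 * (q1 - p1) + b2 * (q2 - p2)) +
      ((q1 - p1) - t * (q2 - p2)) * (b1 * (o1 - p1) + b2 * (o2 - p2)) := by ring
  rw [hu, mul_zero, zero_add] at hid
  have h1 : ((q1 - p1) - t * (q2 - p2)) * (b1 * (o1 - p1) + b2 * (o2 - p2)) ≤ 0 :=
    mul_nonpos_of_nonpos_of_nonneg hex.le hv
  have h2 : 0 ≤ ((q1 - p1) * (o2 - p2) - (q2 - p2) * (o1 - p1)) * (b1 * t + b2) :=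
    mul_nonneg har.le hd
  have h3 : ((q1 - p1) - t * (q2 - p2)) * (b1 * (o1 - p1) + b2 * (o2 - p2)) = 0 := by
    linarith
  have h4 : b1 * (o1 - p1) + b2 * (o2 - p2) = 0 := by
    rcases mul_eq_zero.mp h3 with h | h
    · exact absurd h hex.ne
    · exact h
  have h5 : b1 * ((q1 - p1) * (o2 - p2) - (q2 - p2) * (o1 - p1)) = 0 := by
    have : b1 * ((q1 - p1) * (o2 - p2) - (q2 - p2) * (o1 - p1)) =
      (b1 * (q1 - p1) + b2 * (q2 - p2)) * (o2 - p2) -
        (b1 * (o1 - p1) + b2 * (o2 - p2)) * (q2 - p2) := by ring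
    rw [this, hu, h4]; ring
  have h6 : b2 * ((q1 - p1) * (o2 - p2) - (q2 - p2) * (o1 - p1)) = 0 := by
    have : b2 * ((q1 - p1) * (o2 - p2) - (q2 - p2) * (o1 - p1)) =
      (b1 * (o1 - p1) + b2 * (o2 - p2)) * (q1 - p1) -
        (b1 * (q1 - p1) + b2 * (q2 - p2)) * (o1 - p1) := by ring
    rw [this, hu, h4]; ring
  exact ⟨(mul_eq_zero.mp h5).resolve_right har.ne', (mul_eq_zero.mp h6).resolve_right har.ne'⟩

theorem aff_zero {J : Set ℝ} (hJ : IsOpen J) {t b1 b2 : ℝ} (ht : t ∈ J)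
    (h : ∀ s ∈ J, 0 ≤ b1 * s + b2) (h0 : b1 * t + b2 = 0) : b1 = 0 ∧ b2 = 0 := by
  obtain ⟨ε, hε, hb⟩ := Metric.isOpen_iff.mp hJ t ht
  have h1 := h (t + ε / 2) (hb (by rw [Metric.mem_ball, Real.dist_eq]; ring_nf; rw [abs_of_pos (by linarith)]; linarith))
  have h2 := h (t - ε / 2) (hb (by rw [Metric.mem_ball, Real.dist_eq]; ring_nf; rw [abs_of_neg (by linarith)]; linarith))
  have h3 : 0 ≤ b1 * (ε / 2) := by nlinarith
  have h4 : 0 ≤ -(b1 * (ε / 2)) := by nlinarith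
  have h5 : b1 * (ε / 2) = 0 := by linarith
  have h6 : b1 = 0 := (mul_eq_zero.mp h5).resolve_right (by linarith)
  refine ⟨h6, ?_⟩
  rw [h6] at h0
  linarith

theorem pf_HL1 (h1 : T_PT) (h2 : T_CR) : T_HL1 := by
  intro n S J up lev α β hJ H
  have hPn : ∀ r : Side n, 0 ≤ hh α β r.1 (S.P r) := fun r => H.nonneg r.1 r.2
  have hQn : ∀ r : Side n, 0 ≤ hh α β r.1 (S.Q r) := fun r => H.nonneg r.1 (r.2 + 1)
  have hOn : ∀ r : Side n, 0 ≤ hh α β r.1 (S.O r) := fun r => H.nonneg r.1 (r.2 + 2)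
  refine ⟨?_, ?_, ?_⟩
  · intro t ht r x hx hup
    obtain ⟨l0, l1⟩ := lam_mem S hx
    rw [ex_eq]
    by_contra hcon
    rw [not_lt] at hcon
    have e1 : 0 ≤ (1 - S.lam t r x) * hh α β r.1 (S.P r) :=
      mul_nonneg (by linarith) (hPn r)
    have e2 : 0 ≤ S.lam t r x * hh α β r.1 (S.Q r) := mul_nonneg l0.le (hQn r)
    have e3 : (1 - S.lam t r x) * hh α β r.1 (S.P r) = 0 := by linarith
    have e4 : S.lam t r x * hh α β r.1 (S.Q r) = 0 := by linarith
    have e5 : hh α β r.1 (S.P r) = 0 := (mul_eq_zero.mp e3).resolve_left (by linarith)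
    have e6 : hh α β r.1 (S.Q r) = 0 := (mul_eq_zero.mp e4).resolve_left l0.ne'
    have hout : ((S.Q r).re - (S.P r).re) - t * ((S.Q r).im - (S.P r).im) < 0 := by
      have := hx.1.trans hx.2
      simp only [xi] at this
      linarith
    have har := S.ar_pos r
    simp only [ar, Complex.sub_re, Complex.sub_im] at har
    have hO := hOn r
    have hd := H.dir_up t ht r.1 hup
    have e5' := e5
    unfold hh at e5 e6 hO
    obtain ⟨b1, b2⟩ := core e5 e6 hO hd hout har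
    have hb : β r.1 = 0 := Complex.ext b1 b2
    have ha := H.const r.1 hb
    rw [ha, hb] at e5
    simp at e5
  · intro t ht r r' x hrun hlev hup
    rw [run_cons_cons, run_single] at hrun
    obtain ⟨r1, r2, r3⟩ := hrun
    obtain ⟨l0, l1⟩ := lam_mem S r1
    have hne : xi t (S.P r) ≠ xi t (S.Q r) := by
      have := r1.1.trans r1.2
      exact this.ne'
    have hout : S.Out t r := by
      have := r1.1.trans r1.2
      exact this
    obtain ⟨-, hpt, -⟩ := h1 n S t r hne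
    have hg := H.glue_up t ht r hout (by rw [hlev, r2]) hup
    have hcr := (h2 n S t (S.mv t r x)).1 (S.gl r) r' r2 ((S.inI_gl_iff t r x).mpr r1) r3
    obtain ⟨c1, c2⟩ := hcr
    set σ : ℝ := (S.pt t r' (S.mv t r x)).im - (S.pt t (S.gl r) (S.mv t r x)).im with hσ
    have hσ0 : 0 < σ := by rw [hσ]; linarith
    have hex' : S.ex α β t r' (S.mv t r x) = hh α β r'.1 (S.pt t (S.gl r) (S.mv t r x)) +
        σ * ((β r'.1).re * t + (β r'.1).im) := by
      rw [ex, c2, hh_dir]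
    have hgl : hh α β r'.1 (S.pt t (S.gl r) (S.mv t r x)) =
        (1 - S.lam t r x) * hh α β (S.gl r).1 (S.Q (S.gl r)) +
          S.lam t r x * hh α β (S.gl r).1 (S.P (S.gl r)) := by
      rw [← r2, ← hpt x, S.Q_gl, S.P_gl]
      rw [← hh_mix]
      congr 1
      rw [pt]
      ring
    have hup' : up (lev r'.1) := by rw [← hlev]; exact hup
    have hd := H.dir_up t ht r'.1 hup'
    have hge : S.a r * S.ex α β t r x ≤ hh α β r'.1 (S.pt t (S.gl r) (S.mv t r x)) := by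
      rw [hgl, ex_eq]
      have e1 := mul_le_mul_of_nonneg_left hg.1 (by linarith : 0 ≤ 1 - S.lam t r x)
      have e2 := mul_le_mul_of_nonneg_left hg.2 l0.le
      calc S.a r * ((1 - S.lam t r x) * hh α β r.1 (S.P r) +
            S.lam t r x * hh α β r.1 (S.Q r)) =
          (1 - S.lam t r x) * (S.a r * hh α β r.1 (S.P r)) +
            S.lam t r x * (S.a r * hh α β r.1 (S.Q r)) := by ring
        _ ≤ _ := add_le_add e1 e2
    have hsd : 0 ≤ σ * ((β r'.1).re * t + (β r'.1).im) := mul_nonneg hσ0.le hd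
    refine ⟨by rw [hex']; linarith, ?_⟩
    intro heq
    rw [hex'] at heq
    have e1 : σ * ((β r'.1).re * t + (β r'.1).im) = 0 := by linarith
    have e2 : (β r'.1).re * t + (β r'.1).im = 0 :=
      (mul_eq_zero.mp e1).resolve_left hσ0.ne'
    obtain ⟨b1, b2⟩ := aff_zero hJ ht (fun s hs => H.dir_up s hs r'.1 hup') e2
    have hb : β r'.1 = 0 := Complex.ext b1 b2
    refine ⟨hb, ?_⟩
    intro hb0
    have a1 := H.const r.1 hb0
    have a2 := H.const r'.1 hb
    have e3 : S.a r * S.ex α β t r x = hh α β r'.1 (S.pt t (S.gl r) (S.mv t r x)) := by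
      linarith
    simp only [ex, hh, hb0, hb, a1, a2, Complex.zero_re, Complex.zero_im, zero_mul,
      add_zero, mul_one] at e3
    exact e3
  · refine ⟨1 + ∑ s : Side n, (hh α β s.1 (S.P s) + hh α β s.1 (S.Q s)), ?_, ?_⟩
    · have : 0 ≤ ∑ s : Side n, (hh α β s.1 (S.P s) + hh α β s.1 (S.Q s)) :=
        Finset.sum_nonneg fun s _ => add_nonneg (hPn s) (hQn s)
      linarith
    · intro t r x hx
      obtain ⟨l0, l1⟩ := lam_mem S hx
      have h3 : hh α β r.1 (S.P r) + hh α β r.1 (S.Q r) ≤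
          ∑ s : Side n, (hh α β s.1 (S.P s) + hh α β s.1 (S.Q s)) :=
        Finset.single_le_sum (f := fun s : Side n => hh α β s.1 (S.P s) + hh α β s.1 (S.Q s))
          (fun s _ => add_nonneg (hPn s) (hQn s)) (Finset.mem_univ r)
      rw [ex_eq]
      have e1 : (1 - S.lam t r x) * hh α β r.1 (S.P r) ≤ hh α β r.1 (S.P r) := by
        have := mul_nonneg l0.le (hPn r)
        linarith
      have e2 : S.lam t r x * hh α β r.1 (S.Q r) ≤ hh α β r.1 (S.Q r) := by
        have := mul_nonneg (by linarith : 0 ≤ 1 - S.lam t r x) (hQn r)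
        linarith
      linarith

end Pool.Agent.H14.DU.HL1
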