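import Pool.Agent.H44.DU.Targets2

/-!
# The indices at which a boundary leaf meets a corner are close together
-/

set_option autoImplicit false

namespace Pool.Agent.H14.DU.KD

open Pool.Agent.H44.DU Pool.Agent.H44.DU.Surf

variable {n : ℕ}

theorem inj_of_run (S : Surf n) {t z : ℝ} {w : List (Side n)} (h : S.Run t w z) (k : ℕ)
    (hk : k < w.length) : S.InJ t w[k] (S.g t (w.take k) z) := by
  have h1 := S.run_drop h k
  rw [List.drop_eq_getElem_cons hk] at h1
  exact h1.1

theorem step (h1 : T_HT) (S : Surf n) {t z : ℝ} {w : List (Side n)} (h : S.Run t w z) (k : ℕ)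
    (hk : k + 1 < w.length) :
    S.ht t (w.take k) w[k] z ≤ S.ht t (w.take (k + 1)) w[k + 1] z := by
  have h2 := S.run_take h (k + 2)
  have e1 : w.take (k + 1) = w.take k ++ [w[k]] := (List.take_append_getElem (by omega)).symm
  have e2 : w.take (k + 2) = w.take k ++ [w[k]] ++ [w[k + 1]] := by
    rw [← e1]
    exact (List.take_append_getElem hk).symm
  rw [e2] at h2
  obtain ⟨a1, a2, -⟩ := h1 n S t z _ _ _ h2
  rw [e1]
  have a3 := div_pos a2 (S.A_pos (w.take k ++ [w[k]]))
  linarith

theorem mono (h1 : T_HT) (S : Surf n) {t z : ℝ} {w : List (Side n)} (h : S.Run t w z) (k : ℕ) :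
    ∀ (d : ℕ) (hk : k + d < w.length),
    S.ht t (w.take k) (w[k]'(by omega)) z ≤ S.ht t (w.take (k + d)) w[k + d] z := by
  intro d
  induction d with
  | zero => intro _; exact le_rfl
  | succ d ih =>
    intro hk
    exact (ih (by omega)).trans (step h1 S h (k + d) hk)

theorem mono' (h1 : T_HT) (S : Surf n) {t z : ℝ} {w : List (Side n)} (h : S.Run t w z)
    (k j : ℕ) (hkj : k ≤ j) (hj : j < w.length) :
    S.ht t (w.take k) (w[k]'(by omega)) z ≤ S.ht t (w.take j) w[j] z := by
  obtain ⟨d, rfl⟩ := Nat.exists_eq_add_of_le hkj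
  exact mono h1 S h k d hj

theorem idx {α : Type*} {w p q : List α} {r : α} (h : w = p ++ r :: q)
    (hj : p.length < w.length) : w.take p.length = p ∧ w[p.length] = r := by
  subst h
  simp

theorem gain_step (h1 : T_HT) (S : Surf n) {t c z : ℝ} (hc : S.Gain t c)
    {w : List (Side n)} (h : S.Run t w z) (k1 k2 : ℕ) (h2 : k2 < w.length)
    (hk : k1 + 3 * n ≤ k2) :
    ∃ (j : ℕ) (hj : j + 1 < w.length), k1 ≤ j ∧ j + 1 ≤ k2 ∧
      c / S.A (w.take (j + 1)) ≤
        S.ht t (w.take (j + 1)) w[j + 1] z - S.ht t (w.take j) (w[j]'(by omega)) z := by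
  have a1 := S.run_take (S.run_drop h k1) (k2 - k1 + 1)
  have a2 : ((w.drop k1).take (k2 - k1 + 1)).length = k2 - k1 + 1 := by
    rw [List.length_take, List.length_drop]; omega
  obtain ⟨u, r, r', w', hv, hcc⟩ := hc _ _ a1 (by rw [a2]; omega)
  have hw : w = (w.take k1 ++ u) ++ r :: r' :: (w' ++ (w.drop k1).drop (k2 - k1 + 1)) := by
    conv_lhs => rw [← List.take_append_drop k1 w,
      ← List.take_append_drop (k2 - k1 + 1) (w.drop k1), hv]
    simp
  have hpl : (w.take k1 ++ u).length = k1 + u.length := by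
    rw [List.length_append, List.length_take]; omega
  have hul : u.length + 1 ≤ k2 - k1 := by
    rw [hv] at a2
    simp only [List.length_append, List.length_cons] at a2
    omega
  have hw2 : w = (w.take k1 ++ u ++ [r]) ++ r' :: (w' ++ (w.drop k1).drop (k2 - k1 + 1)) := by
    conv_lhs => rw [hw]
    simp
  have hpl2 : (w.take k1 ++ u ++ [r]).length = k1 + u.length + 1 := by
    rw [List.length_append, hpl]; rfl
  obtain ⟨i1, i2⟩ := idx hw (by rw [hpl]; omega)
  obtain ⟨i3, i4⟩ := idx hw2 (by rw [hpl2]; omega)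
  have hw3 : w = (w.take k1 ++ u ++ [r] ++ [r']) ++ (w' ++ (w.drop k1).drop (k2 - k1 + 1)) := by
    conv_lhs => rw [hw]
    simp
  have hrun : S.Run t (w.take k1 ++ u ++ [r] ++ [r']) z := by
    have h' := h
    rw [hw3, run_append] at h'
    exact h'.1
  obtain ⟨b1, b2, -⟩ := h1 n S t z _ _ _ hrun
  have b3 : S.g t (w.take k1 ++ u ++ [r]) z = S.g t (u ++ [r]) (S.g t (w.take k1) z) := by
    rw [List.append_assoc, g_append]
  refine ⟨k1 + u.length, by omega, by omega, by omega, ?_⟩
  simp only [hpl] at i1 i2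
  simp only [hpl2] at i3 i4
  rw [i1, i2, i3, i4, b1, b3]
  exact div_le_div_of_nonneg_right hcc (S.A_pos _).le

theorem ht_cont (S : Surf n) (t : ℝ) (w : List (Side n)) (r : Side n) :
    Continuous fun x => S.ht t w r x := by
  have h1 : Continuous fun x : ℝ => S.lam t r (S.g t w x) := by
    unfold lam g
    exact (continuous_const.sub ((continuous_const.mul continuous_id).add
      continuous_const)).div_const _
  unfold ht pt
  exact ((Complex.continuous_im.comp (continuous_const.add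
    ((Complex.continuous_ofReal.comp h1).mul continuous_const))).sub
      continuous_const).div_const _

theorem corner (h3 : T_PT) (S : Surf n) {t x : ℝ} (w : List (Side n)) (r : Side n)
    (hne : xi t (S.Q r) < xi t (S.P r))
    (hq : xi t (S.Q r) ≤ S.g t w x) (hp : S.g t w x ≤ xi t (S.P r))
    (hn : ¬ S.InJ t r (S.g t w x)) :
    ∃ c : Side n, xi t (S.dev w c) = x ∧ (S.dev w c).im = S.ht t w r x := by
  obtain ⟨-, -, p1, p2, -⟩ := h3 n S t r hne.ne'
  have hA := (S.A_pos w).ne'
  have key : ∀ c : Side n, xi t (S.P c) = S.g t w x → S.pt t r (S.g t w x) = S.P c →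
      xi t (S.dev w c) = x ∧ (S.dev w c).im = S.ht t w r x := by
    intro c e1 e2
    constructor
    · rw [dev, xi_div, xi_sub, e1, g]
      field_simp
      ring
    · rw [dev, ht, e2, Complex.div_ofReal_im, Complex.sub_im]
  rcases hq.lt_or_eq with h | h
  · rcases hp.lt_or_eq with h' | h'
    · exact absurd ⟨h, h'⟩ hn
    · exact ⟨r, key r h'.symm (by rw [h', p1])⟩
  · exact ⟨nx r, key (nx r) (by rw [P_nx, h]) (by rw [← h, p2, P_nx])⟩

theorem pf_KD (h1 : T_HT) (h2 : T_LH) (h3 : T_PT) : T_KD := by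
  intro n S t c hG hc hgain w x hy hlo hhi k₁ k₂ hk₁ hk₂ hn₁ hn₂
  obtain ⟨y, hy⟩ := hy
  have hwne : w ≠ [] := by
    rintro rfl
    simp at hk₁
  obtain ⟨hchn, hly, hyh⟩ := (h2 n S t w hwne y).mp hy
  have hrun : ∀ z ∈ Set.Ioo (S.lo t w) (S.hi t w), S.Run t w z := fun z hz =>
    (h2 n S t w hwne z).mpr ⟨hchn, hz.1, hz.2⟩
  have hcl : x ∈ closure (Set.Ioo (S.lo t w) (S.hi t w)) := by
    rw [closure_Ioo (hly.trans hyh).ne]
    exact ⟨hlo, hhi⟩
  have gcont : ∀ k : ℕ, Continuous fun z => S.g t (w.take k) z := by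
    intro k
    unfold g
    exact (continuous_const.mul continuous_id).add continuous_const
  have hcor : ∀ (k : ℕ) (hk : k < w.length), ¬ S.InJ t w[k] (S.g t (w.take k) x) →
      ∃ c : Side n, xi t (S.dev (w.take k) c) = x ∧
        (S.dev (w.take k) c).im = S.ht t (w.take k) w[k] x := by
    intro k hk hn
    have hy' := inj_of_run S hy k hk
    refine corner h3 S (w.take k) w[k] (hy'.1.trans hy'.2) ?_ ?_ hn
    · have hsub : Set.Ioo (S.lo t w) (S.hi t w) ⊆
          {z | xi t (S.Q w[k]) ≤ S.g t (w.take k) z} := fun z hz =>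
        (inj_of_run S (hrun z hz) k hk).1.le
      exact closure_minimal hsub (isClosed_le continuous_const (gcont k)) hcl
    · have hsub : Set.Ioo (S.lo t w) (S.hi t w) ⊆
          {z | S.g t (w.take k) z ≤ xi t (S.P w[k])} := fun z hz =>
        (inj_of_run S (hrun z hz) k hk).2.le
      exact closure_minimal hsub (isClosed_le (gcont k) continuous_const) hcl
  obtain ⟨c1, d1, e1⟩ := hcor k₁ hk₁ hn₁
  obtain ⟨c2, d2, e2⟩ := hcor k₂ hk₂ hn₂
  have heq := hG _ _ c1 c2 (d1.trans d2.symm)
  rw [e1, e2] at heq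
  by_contra hcon
  rw [not_lt] at hcon
  set M : ℝ := ∑ i ∈ Finset.range (w.length + 1), S.A (w.take i) with hM
  have hMge : ∀ i ≤ w.length, S.A (w.take i) ≤ M := by
    intro i hi
    exact Finset.single_le_sum (f := fun i => S.A (w.take i)) (fun i _ => (S.A_pos _).le)
      (Finset.mem_range.mpr (by omega))
  have hMpos : 0 < M := (S.A_pos _).trans_le (hMge 0 (by omega))
  have hsub : Set.Ioo (S.lo t w) (S.hi t w) ⊆
      {z | c / M ≤ S.ht t (w.take k₂) w[k₂] z - S.ht t (w.take k₁) w[k₁] z} := by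
    intro z hz
    obtain ⟨j, hj, a1, a2, a3⟩ := gain_step h1 S hgain (hrun z hz) k₁ k₂ hk₂ hcon
    have b1 := mono' h1 S (hrun z hz) k₁ j a1 (by omega)
    have b2 := mono' h1 S (hrun z hz) (j + 1) k₂ a2 hk₂
    have b3 : c / M ≤ c / S.A (w.take (j + 1)) :=
      div_le_div_of_nonneg_left hc.le (S.A_pos _) (hMge _ (by omega))
    simp only [Set.mem_ofPred_eq]
    linarith
  have hfin := closure_minimal hsub (isClosed_le continuous_const
    ((ht_cont S t _ _).sub (ht_cont S t _ _))) hcl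
  have h0 : 0 < c / M := div_pos hc hMpos
  have hfin' : c / M ≤ S.ht t (w.take k₂) w[k₂] x - S.ht t (w.take k₁) w[k₁] x := hfin
  linarith

end Pool.Agent.H14.DU.KD
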